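import Pool.Agent.H.MP_33d24b_co.F

namespace Pool.Agent.Results.MP_33d24b_co.Yes

open Pool.Agent.H.MP_33d24b_co

theorem result : ∃ c k : ℕ, 0 < c ∧ 0 < k ∧
    {b : Fin k → ℕ | Monotone b ∧ (∀ i, 1 ≤ b i) ∧ RP (semistar c b)}.Finite ∧
    {b : Fin k → ℕ | Monotone b ∧ (∀ i, 1 ≤ b i) ∧ RP (semistar c b)}.Nonempty :=
  ⟨3, 8, by norm_num, by norm_num, main⟩

end Pool.Agent.Results.MP_33d24b_co.Yes
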